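import Pool.Agent.H531.MS.Res

set_option autoImplicit false

/-!
# Maier's theorem with the extremal constants of the interval sieve

For `a > 1` let `f⁺(a)` and `f⁻(a)` be the upper limit of the maximum and the lower limit of the minimum, as
`u → ∞`, of the number of integers without prime factors `≤ u` in an interval `(x, x + u ^ a]`, divided by
`u ^ a ∏_{p ≤ u} (1 - 1 / p)`, over ALL `x` (Maier used the intervals near `x = 0`, whose densities are given by
Buchstab's function).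

(1) All these densities are realised by the primes: for every `u ≥ u₀(a, ε)` and every `x` there are integers `n`, `n'`
in `(e ^ u, 3 e ^ u)` with `R_a(n) ≥ s - ε` and `R_a(n') ≤ s + ε`, where `R_a = R_{(log x) ^ a}` and
`s` is the normalised number for `(x, x + u ^ a]`.
(2) So `L_a ≤ f⁻(a)` and `f⁺(a) ≤ U_a` for every real `a > 1`.
(3) The same bounds hold for ALL functions `h` with `c ≤ h(x) ≤ (log x) ^ A`: `L(h) ≤ f⁻(B)` and
`f⁺(B) ≤ U(h)` for all `B > A`, `B > 1`.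
(4) `f⁻(a) < 1 < f⁺(a) < ∞` for all `a > 1`, and `f⁻(a) > 0` for `a > 2`; `f⁻` is monotone, `f⁺` antitone, and both
tend to `1` as `a → ∞`.

In the probabilistic models which take the small primes into account one expects (and for the model of Banks, Ford and
Tao one can prove) equality in (2) for `a > 2`.
-/

open Filter Topology
open scoped ENNReal

namespace Pool.Agent.Results.MP_b09185_nt.ExtremalSieveConstants

/-- the number of the integers in `(x, x + y]` without prime factors `≤ u` -/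
noncomputable def S (u x y : ℕ) : ℕ := {m : ℕ | x < m ∧ m ≤ x + y ∧ ∀ p ≤ u, p.Prime → ¬ p ∣ m}.ncard

/-- `V u = ∏ (1 - 1 / p)` over the primes `p ≤ u` -/
noncomputable def V (u : ℕ) : ℝ := ∏ p ∈ (Finset.range (u + 1)).filter Nat.Prime, (1 - 1 / (p : ℝ))

/-- the number of the integers in `(x, x + u ^ a]` without prime factors `≤ u`, divided by `u ^ a * V u` -/
noncomputable def s (a : ℝ) (u x : ℕ) : ℝ := S u x ⌊(u : ℝ) ^ a⌋₊ / ((u : ℝ) ^ a * V u)

/-- the upper limit of the maximum over `x` -/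
noncomputable def fPlus (a : ℝ) : ℝ≥0∞ := limsup (fun u : ℕ => ⨆ x : ℕ, ENNReal.ofReal (s a u x)) atTop

/-- the lower limit of the minimum over `x` -/
noncomputable def fMinus (a : ℝ) : ℝ≥0∞ := liminf (fun u : ℕ => ⨅ x : ℕ, ENNReal.ofReal (s a u x)) atTop

/-- `R_h(x) = (log x / h(x)) (π(x + h(x)) - π(x))` -/
noncomputable def R (h : ℝ → ℝ) (x : ℝ) : ℝ :=
  Real.log x / h x * ((Nat.primeCounting ⌊x + h x⌋₊ : ℝ) - Nat.primeCounting ⌊x⌋₊)

/-- `U(h)`, in `[0, ∞]` -/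
noncomputable def U (h : ℝ → ℝ) : ℝ≥0∞ := limsup (fun x : ℝ => ENNReal.ofReal (R h x)) atTop

/-- `L(h)`, in `[0, ∞]` -/
noncomputable def L (h : ℝ → ℝ) : ℝ≥0∞ := liminf (fun x : ℝ => ENNReal.ofReal (R h x)) atTop

/-- the function `(log x) ^ a` -/
noncomputable def logPow (a : ℝ) : ℝ → ℝ := fun x => Real.log x ^ a

theorem result :
    -- the primes realise all the densities of the interval sieve
    (∀ a ε : ℝ, 1 < a → 0 < ε → ∀ᶠ u : ℕ in atTop, ∀ x : ℕ,
      (∃ n : ℕ, (Real.exp u < n ∧ (n : ℝ) < 3 * Real.exp u) ∧ s a u x - ε ≤ R (logPow a) n) ∧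
      (∃ n : ℕ, (Real.exp u < n ∧ (n : ℝ) < 3 * Real.exp u) ∧ R (logPow a) n ≤ s a u x + ε)) ∧
    -- `L_a` and `U_a`
    (∀ a : ℝ, 1 < a → L (logPow a) ≤ fMinus a ∧ fPlus a ≤ U (logPow a)) ∧
    -- all functions `h` with `c ≤ h(x) ≤ (log x) ^ A`
    (∀ (h : ℝ → ℝ) (A B c : ℝ), 0 < A → A < B → 1 < B → 0 < c →
      (∀ᶠ x : ℝ in atTop, c ≤ h x ∧ h x ≤ Real.log x ^ A) → L h ≤ fMinus B ∧ fPlus B ≤ U h) ∧
    -- the constants
    (∀ a : ℝ, 1 < a → fMinus a < 1 ∧ 1 < fPlus a ∧ fPlus a < ⊤) ∧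
    (∀ a : ℝ, 2 < a → 0 < fMinus a) ∧
    (∀ a b : ℝ, 0 < a → a < b → fMinus a ≤ fMinus b ∧ fPlus b ≤ fPlus a) ∧
    Tendsto fMinus atTop (𝓝 1) ∧ Tendsto fPlus atTop (𝓝 1) := by
  have hs : s = Pool.Agent.H531.MS.nc := by
    funext a u x
    unfold s Pool.Agent.H531.MS.nc S
    rw [Pool.Agent.H531.MS.S_eq]
    rfl
  have hp : fPlus = Pool.Agent.H531.MS.fp := by
    funext a
    unfold fPlus
    rw [hs]
    rfl
  have hm : fMinus = Pool.Agent.H531.MS.fm := by
    funext a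
    unfold fMinus
    rw [hs]
    rfl
  rw [hp, hm, hs]
  refine ⟨fun a ε ha hε => ?_, fun a ha => Pool.Agent.H531.MS.pw_main ha,
    fun h A B c hA hAB hB hc hh => Pool.Agent.H531.MS.all_main h A B c hA hAB hB hc hh,
    fun a ha => ⟨Pool.Agent.H531.MS.fm_lt_one (by linarith), Pool.Agent.H531.MS.one_lt_fp (by linarith),
      Pool.Agent.H531.MS.fp_lt_top ha⟩, fun a ha => Pool.Agent.H531.MS.fm_pos ha,
    fun a b ha hab => ⟨Pool.Agent.H531.MS.fm_mono ha hab, Pool.Agent.H531.MS.fp_anti ha hab⟩,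
    Pool.Agent.H531.MS.fm_top, Pool.Agent.H531.MS.fp_top⟩
  filter_upwards [Pool.Agent.H531.MS.primes_fin ha ε hε] with u hu x
  obtain ⟨⟨n, hn, h1⟩, ⟨m, hm', h2⟩⟩ := hu x
  have h3 : ∀ k : ℕ, Real.exp u < k → (1 : ℝ) ≤ k := fun k hk => by
    have := Real.add_one_le_exp (u : ℝ)
    have h0 : (0 : ℝ) ≤ u := Nat.cast_nonneg u
    linarith
  rw [Pool.Agent.H531.MS.Rr_primes a n (h3 n hn.1)] at h1
  rw [Pool.Agent.H531.MS.Rr_primes a m (h3 m hm'.1)] at h2
  exact ⟨⟨n, hn, h1⟩, ⟨m, hm', h2⟩⟩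

end Pool.Agent.Results.MP_b09185_nt.ExtremalSieveConstants
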