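import Pool.Agent.H524.SI.Res

/-!
# Short intervals with few irreducible polynomials over a finite field of characteristic two

The interval of length `q ^ h` around the monic polynomial `A` of degree `n` consists of the `q ^ h`
polynomials `P` with `deg (P - A) < h`; with `X = q ^ n = |A|`, the expected number of irreducible
polynomials in it is `q ^ h / n = q ^ h log q / log X`.
-/

set_option autoImplicit false

namespace Pool.Agent.Results.MP_b09185_nt.FewPrimesEvenCharacteristic

open Polynomial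

/-- Let `K` be a finite field with an even number `q` of elements.

(1) There is `C > 0` such that for all real `a`, `2 < a ≤ 5 / 2`, and all large `n` there is, in
degree `n`, an interval of length `q ^ h`, `(log X) ^ a ≤ q ^ h ≤ C (log X) ^ a`, `X = q ^ n`,
with at most `C (a - 2) q ^ h / n` irreducible polynomials.

(2) For all `T, ε > 0`, all large `n` and all `h` with `q ^ h ≤ T (log X) ^ 2`, `X = q ^ n`, there
is, in degree `n`, an interval of length `q ^ h` with at most `ε q ^ h / n` irreducible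
polynomials. -/
theorem result (K : Type) [Field K] [Fintype K] (hK : Even (Fintype.card K)) :
    (∃ C : ℝ, 0 < C ∧ ∀ a : ℝ, 2 < a → a ≤ 5 / 2 → ∃ n₀ : ℕ, ∀ n : ℕ, n₀ ≤ n →
      ∃ (A : K[X]) (h : ℕ), A.Monic ∧ A.natDegree = n ∧
        Real.log ((Fintype.card K : ℝ) ^ n) ^ a ≤ (Fintype.card K : ℝ) ^ h ∧
        (Fintype.card K : ℝ) ^ h ≤ C * Real.log ((Fintype.card K : ℝ) ^ n) ^ a ∧
        ({P : K[X] | (P - A).degree < (h : WithBot ℕ) ∧ Irreducible P}.ncard : ℝ) ≤
          C * (a - 2) * ((Fintype.card K : ℝ) ^ h / n)) ∧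
    (∀ T ε : ℝ, 0 < T → 0 < ε → ∃ n₀ : ℕ, ∀ n : ℕ, n₀ ≤ n → ∀ h : ℕ,
      (Fintype.card K : ℝ) ^ h ≤ T * Real.log ((Fintype.card K : ℝ) ^ n) ^ 2 →
      ∃ A : K[X], A.Monic ∧ A.natDegree = n ∧
        ({P : K[X] | (P - A).degree < (h : WithBot ℕ) ∧ Irreducible P}.ncard : ℝ) ≤
          ε * ((Fintype.card K : ℝ) ^ h / n)) := by
  have hchar : ringChar K = 2 :=
    FiniteField.even_card_iff_char_two.mpr (Nat.even_iff.mp hK)
  haveI : CharP K 2 := ringChar.eq_iff.mp hchar
  exact ⟨Pool.Agent.H524.SI.main K, fun T ε hT hε => Pool.Agent.H524.SI.short K T ε hT hε⟩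

end Pool.Agent.Results.MP_b09185_nt.FewPrimesEvenCharacteristic
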