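import Pool.Agent.H669.PL.D

/-! # Primes in intervals of length `(log x) ^ a` and one good integer in each interval

For a set `A` of integers let `rate A a x` be `log x / (log x) ^ a` times the number of elements of
`A` in `(x, x + (log x) ^ a]`; for the primes this is `R_h(x)` with `h = (log x) ^ a`, `U_a` and `L_a`
are its upper and lower limits.  An integer `n` is in `dense A μ` if some window `(n, n + h]`, `h > 0`
arbitrary, contains more than `μ h / log n` elements of `A`, and in `sparse A μ` if some window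
`[n, n + h]`, `0 < h ≤ n`, contains fewer than `μ h / log n` elements of `A`.  The following holds for
all sets `A`, in particular for the primes.

1. (Exact law.)  If all intervals `(x, x + (log x) ^ b]` with large `x` contain one integer outside
   `dense A μ`, then in all intervals `(x, x + H]`, `H ≤ x`, the number of elements of `A` is
   `μ / log x` times the number of elements of `dense A μ`, up to `O((log x) ^ b + H / log x)` before
   the division by `log x`.  So for all `a > b` the numbers `U_a` and `L_a` are `μ` times the upper and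
   the lower limit of the proportion of `dense A μ` in `(x, x + (log x) ^ a]`.
2. The limit of `U_a` for `a → ∞` is the least `c` such that for every `μ > c` there is `b` such that
   all intervals `(x, x + (log x) ^ b]`, `x` large, contain one integer outside `dense A μ`.
3. The limit of `L_a` is the largest `c` such that for every `μ < c` there is `b` such that all
   these intervals contain one integer outside `sparse A μ`.
4. For every fixed `μ > c ≥ 0`: `lim U_a = lim L_a = c` if and only if the proportion of `dense A μ` in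
   `(x, x + (log x) ^ a]` tends to `c / μ` in the same sense.  For the primes and `c = 1` the left side is
   Q1. -/

set_option autoImplicit false

namespace Pool.Agent.Results.MP_b09185_nt.OneGoodInteger

/-- the number of elements of `A` in `(x, x + H]` -/
noncomputable def count (A : Set ℕ) (x H : ℝ) : ℝ :=
  ({a : ℕ | a ∈ A ∧ x < a ∧ (a : ℝ) ≤ x + H}.ncard : ℝ)

/-- the integers `n` for which some window `(n, n + h]` contains more than `μ h / log n`
elements of `A` -/
def dense (A : Set ℕ) (μ : ℝ) : Set ℕ :=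
  {n : ℕ | ∃ h : ℝ, 0 < h ∧ μ * h / Real.log n < count A n h}

/-- the integers `n` for which some window `[n, n + h]`, `h ≤ n`, contains fewer than
`μ h / log n` elements of `A` -/
def sparse (A : Set ℕ) (μ : ℝ) : Set ℕ :=
  {n : ℕ | ∃ h : ℝ, 0 < h ∧ h ≤ n ∧ count A ((n : ℝ) - 1) (h + 1) < μ * h / Real.log n}

/-- every interval `(x, x + (log x) ^ b]`, `x` large, contains an integer outside `B` -/
def Misses (B : Set ℕ) (b : ℝ) : Prop :=
  ∃ X : ℝ, ∀ x : ℝ, X ≤ x → ∃ n : ℕ, x < n ∧ (n : ℝ) ≤ x + Real.log x ^ b ∧ n ∉ B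

/-- the number of elements of `A` in `(x, x + (log x) ^ a]`, times `log x / (log x) ^ a` -/
noncomputable def rate (A : Set ℕ) (a x : ℝ) : ℝ :=
  count A x (Real.log x ^ a) * Real.log x / Real.log x ^ a

/-- for every `δ > 0` and all large `a` the rate is at most `c + δ` for large `x`:
`lim U_a ≤ c` -/
def UpperAtMost (A : Set ℕ) (c : ℝ) : Prop :=
  ∀ δ : ℝ, 0 < δ → ∃ a₀ : ℝ, ∀ a : ℝ, a₀ ≤ a → ∃ X : ℝ, ∀ x : ℝ, X ≤ x → rate A a x ≤ c + δ

/-- for every `δ > 0` and all large `a` the rate is at least `c - δ` for large `x`: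
`lim L_a ≥ c` -/
def LowerAtLeast (A : Set ℕ) (c : ℝ) : Prop :=
  ∀ δ : ℝ, 0 < δ → ∃ a₀ : ℝ, ∀ a : ℝ, a₀ ≤ a → ∃ X : ℝ, ∀ x : ℝ, X ≤ x → c - δ ≤ rate A a x

/-- `lim U_a = lim L_a = c`; this is Q1 for `c = 1` and the primes -/
def Limit (A : Set ℕ) (c : ℝ) : Prop :=
  ∀ δ : ℝ, 0 < δ → ∃ a₀ : ℝ, ∀ a : ℝ, a₀ ≤ a → ∃ X : ℝ, ∀ x : ℝ, X ≤ x → |rate A a x - c| ≤ δ

/-- the same for the proportion of the elements of `B` -/
def Proportion (B : Set ℕ) (ρ : ℝ) : Prop :=
  ∀ δ : ℝ, 0 < δ → ∃ a₀ : ℝ, ∀ a : ℝ, a₀ ≤ a → ∃ X : ℝ, ∀ x : ℝ, X ≤ x →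
    |count B x (Real.log x ^ a) / Real.log x ^ a - ρ| ≤ δ

theorem result (A : Set ℕ) :
    -- the exact law
    (∀ μ b : ℝ, 0 < μ → 0 < b → Misses (dense A μ) b → ∃ C X : ℝ, ∀ x H : ℝ, X ≤ x → 1 ≤ H →
      H ≤ x → |μ * count (dense A μ) x H - count A x H * Real.log x| ≤
        C * (Real.log x ^ b + H / Real.log x)) ∧
    -- the limits over the exponents, in terms of one integer in each interval
    (∀ c : ℝ, 0 ≤ c → (UpperAtMost A c ↔ ∀ μ : ℝ, c < μ → ∃ b : ℝ, 0 < b ∧ Misses (dense A μ) b)) ∧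
    (∀ c : ℝ, LowerAtLeast A c ↔ ∀ μ : ℝ, μ < c → ∃ b : ℝ, 0 < b ∧ Misses (sparse A μ) b) ∧
    -- the limit relation is equivalent to the law for one `μ`
    (∀ c μ : ℝ, 0 ≤ c → c < μ → (Limit A c ↔ Proportion (dense A μ) (c / μ))) := by
  refine ⟨fun μ b hμ hb h => ?_, fun c hc => ?_, fun c => ?_, fun c μ hc hμ => ?_⟩
  · obtain ⟨C, X, -, hX⟩ := Pool.Agent.H669.PL.gaps_bal hμ hb h
    exact ⟨C, X, fun x H h1 h2 h3 => (hX x H h1 h2 h3).1⟩
  · exact Pool.Agent.H669.PL.up_iff hc
  · exact Pool.Agent.H669.PL.lo_iff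
  · exact Pool.Agent.H669.PL.limit_iff_law hc hμ

end Pool.Agent.Results.MP_b09185_nt.OneGoodInteger
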