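import Pool.Agent.H531.MS.Low

set_option autoImplicit false

/-!
# Intervals of length `(log x) ^ a` in the random sieve model of Banks, Ford and Tao

For every prime `q` a residue class `a q` modulo `q` is drawn uniformly and independently. The random primes are
the integers `n ≥ 3` that are in none of the classes `a q mod q` with `q ≤ zBFT n`, where the sieving limit `zBFT n` is
the largest `m` with `∏_{q ≤ m} (1 - 1 / q)⁻¹ ≤ log n`. The model knows the small primes, and Maier's irregularities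
are present in it.

For `a > 0` let `f⁺(a)` and `f⁻(a)` be the upper limit of the maximum and the lower limit of the minimum, as
`u → ∞`, of the number of integers without prime factors `≤ u` in an interval `(x, x + u ^ a]`, divided by
`u ^ a ∏_{p ≤ u} (1 - 1 / p)`, over all `x`.

The theorem: almost surely, for ALL real `a > 2`,

  `L_a = f⁻(a)` and `U_a = f⁺(a)`, with `0 < f⁻(a) < 1 < f⁺(a) < ∞`,

and `L_a = 0` for all `a ≤ 2`. The functions `f⁻` and `f⁺` are monotone and tend to `1` at infinity. So in the model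
`L_a < 1 < U_a` for all `a > 2`, as in Maier's theorem, and `lim L_a = 1 = lim U_a`: the answer to the question is yes.
The exponent `2` is the exact threshold for `L_a > 0`.
-/

open MeasureTheory ProbabilityTheory Filter Topology
open scoped ENNReal

namespace Pool.Agent.Results.MP_b09185_nt.RandomSieveModel

/-- `V m = ∏ (1 - 1 / q)` over the primes `q ≤ m` -/
noncomputable def V (m : ℕ) : ℝ := ∏ q ∈ (Finset.range (m + 1)).filter Nat.Prime, (1 - 1 / (q : ℝ))

/-! ## The interval sieve -/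

/-- the number of the integers in `(x, x + y]` without prime factors `≤ u` -/
noncomputable def S (u x y : ℕ) : ℕ := {m : ℕ | x < m ∧ m ≤ x + y ∧ ∀ p ≤ u, p.Prime → ¬ p ∣ m}.ncard

/-- the number of the integers in `(x, x + u ^ a]` without prime factors `≤ u`, divided by `u ^ a * V u` -/
noncomputable def s (a : ℝ) (u x : ℕ) : ℝ := S u x ⌊(u : ℝ) ^ a⌋₊ / ((u : ℝ) ^ a * V u)

/-- the upper limit of the maximum over `x` -/
noncomputable def fPlus (a : ℝ) : ℝ≥0∞ := limsup (fun u : ℕ => ⨆ x : ℕ, ENNReal.ofReal (s a u x)) atTop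

/-- the lower limit of the minimum over `x` -/
noncomputable def fMinus (a : ℝ) : ℝ≥0∞ := liminf (fun u : ℕ => ⨅ x : ℕ, ENNReal.ofReal (s a u x)) atTop

/-! ## The model -/

/-- the classes `a q` are independent, and `a q` is uniform on `0, …, q - 1` for every prime `q` -/
structure Model {Ω : Type} [MeasurableSpace Ω] (P : Measure Ω) (a : ℕ → Ω → ℕ) : Prop where
  measurable : ∀ q, Measurable (a q)
  independent : iIndepFun a P
  uniform : ∀ q, q.Prime → ∀ r < q, P.real {ω | a q ω = r} = 1 / q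

/-- the sieving limit of Banks, Ford and Tao: the largest `m` with `∏_{q ≤ m} (1 - 1 / q)⁻¹ ≤ log n` -/
noncomputable def zBFT (n : ℕ) : ℕ := sSup {m : ℕ | (V m)⁻¹ ≤ Real.log n}

/-- the set of the random primes -/
def R {Ω : Type} (a : ℕ → Ω → ℕ) (ω : Ω) : Set ℕ :=
  {n | 3 ≤ n ∧ ∀ q ≤ zBFT n, q.Prime → n % q ≠ a q ω}

/-! ## The normalised counts of a set `A` of integers -/

/-- `(log x / h(x)) #(A ∩ (x, x + h(x)])` for `h(x) = (log x) ^ a` -/
noncomputable def ratio (A : Set ℕ) (a x : ℝ) : ℝ :=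
  Real.log x / Real.log x ^ a * (A ∩ {n : ℕ | x < n ∧ (n : ℝ) ≤ x + Real.log x ^ a}).ncard

/-- `U_a` for the set `A` in place of the primes -/
noncomputable def U (A : Set ℕ) (a : ℝ) : ℝ≥0∞ := limsup (fun x : ℝ => ENNReal.ofReal (ratio A a x)) atTop

/-- `L_a` for the set `A` in place of the primes -/
noncomputable def L (A : Set ℕ) (a : ℝ) : ℝ≥0∞ := liminf (fun x : ℝ => ENNReal.ofReal (ratio A a x)) atTop

theorem result :
    -- the model exists, and the sieving limit is the right one
    (∃ (Ω : Type) (_ : MeasurableSpace Ω) (P : Measure Ω) (a : ℕ → Ω → ℕ), Model P a) ∧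
    Tendsto (fun n => V (zBFT n) * Real.log n) atTop (𝓝 1) ∧
    -- the constants
    (∀ a : ℝ, 2 < a → 0 < fMinus a ∧ fMinus a < 1 ∧ 1 < fPlus a ∧ fPlus a < ⊤) ∧
    (∀ a b : ℝ, 2 < a → a < b → fMinus a ≤ fMinus b ∧ fPlus b ≤ fPlus a) ∧
    Tendsto fMinus atTop (𝓝 1) ∧ Tendsto fPlus atTop (𝓝 1) ∧
    -- the random primes
    ∀ (Ω : Type) [MeasurableSpace Ω] (P : Measure Ω) (a : ℕ → Ω → ℕ), Model P a →
      ∀ᵐ ω ∂P,
        (∀ c : ℝ, 2 < c → L (R a ω) c = fMinus c ∧ U (R a ω) c = fPlus c) ∧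
        (∀ c : ℝ, c ≤ 2 → L (R a ω) c = 0) ∧
        -- so the answer to the question is yes in the model
        Tendsto (L (R a ω)) atTop (𝓝 1) ∧ Tendsto (U (R a ω)) atTop (𝓝 1) := by
  have hs : s = Pool.Agent.H531.MS.nc := by
    funext a u x
    unfold s Pool.Agent.H531.MS.nc S
    rw [Pool.Agent.H531.MS.S_eq]
    rfl
  have hp : fPlus = Pool.Agent.H531.MS.fp := by
    funext a
    unfold fPlus
    rw [hs]
    rfl
  have hm : fMinus = Pool.Agent.H531.MS.fm := by
    funext a
    unfold fMinus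
    rw [hs]
    rfl
  rw [hp, hm]
  refine ⟨?_, Pool.Agent.T2H32.BF.z0_lim, fun a ha => ⟨Pool.Agent.H531.MS.fm_pos ha,
    Pool.Agent.H531.MS.fm_lt_one (by linarith), Pool.Agent.H531.MS.one_lt_fp (by linarith),
      Pool.Agent.H531.MS.fp_lt_top (by linarith)⟩,
    fun a b ha hab => ⟨Pool.Agent.H531.MS.fm_mono (by linarith) hab, Pool.Agent.H531.MS.fp_anti (by linarith) hab⟩,
    Pool.Agent.H531.MS.fm_top, Pool.Agent.H531.MS.fp_top, ?_⟩
  · obtain ⟨Ω, i, P, a, h⟩ := Pool.Agent.T2H32.BF.exists_model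
    exact ⟨Ω, i, P, a, h.measurable, h.independent, h.uniform⟩
  · intro Ω _ P a hmod
    have h : Pool.Agent.T2H32.BF.Model P a := ⟨hmod.measurable, hmod.independent, hmod.uniform⟩
    have hR : ∀ ω, R a ω = Pool.Agent.T2H32.BF.R Pool.Agent.T2H32.BF.z0 (fun q => a q ω) := fun ω => rfl
    filter_upwards [Pool.Agent.H531.MS.ae_good h, Pool.Agent.H531.MS.ae_low h] with ω h1 h2
    have h3 : ∀ c : ℝ, 2 < c → L (R a ω) c = Pool.Agent.H531.MS.fm c ∧ U (R a ω) c = Pool.Agent.H531.MS.fp c :=
      fun c hc => Pool.Agent.H531.MS.good_limits h1 hc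
    refine ⟨h3, fun c hc => Pool.Agent.H531.MS.low h2.1 h2.2 hc, ?_, ?_⟩
    · refine Pool.Agent.H531.MS.fm_top.congr' ?_
      filter_upwards [eventually_gt_atTop 2] with c hc using (h3 c hc).1.symm
    · refine Pool.Agent.H531.MS.fp_top.congr' ?_
      filter_upwards [eventually_gt_atTop 2] with c hc using (h3 c hc).2.symm

end Pool.Agent.Results.MP_b09185_nt.RandomSieveModel
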